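import Pool.Agent.SGL.StmtsA

/-!
# Row CRN (squad SGL): any vertex may be a corner of the outer triangle
-/

noncomputable section

namespace Pool.Agent.SGL.H28

open Pool.Agent.SGE Pool.Agent.SGP Pool.Agent.SGY Pool.Agent.SGD

theorem crn (snt : SntStmt) : CrnStmt := by
  intro V _ E Φ h a ha
  obtain ⟨c, hc⟩ := ha
  obtain ⟨b, hb⟩ := h.ex hc
  have e2 : E c b := h.fe _ _ _ (h.rot _ _ _ hb)
  have e3 : E b a := h.fe _ _ _ (h.rot _ _ _ (h.rot _ _ _ hb))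
  exact ⟨b, c, dF Φ a c b, ⟨a, e3⟩, ⟨b, e2⟩, snt h a c b hb⟩

end Pool.Agent.SGL.H28
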