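import Pool.Agent.SGL.StmtsU
import Pool.Agent.SGL.Alg

/-!
# Squad SGL, row PGP (helper28): general position
-/

set_option autoImplicit false

noncomputable section

namespace Pool.Agent.SGL.H28

open Pool.Agent.SGE Pool.Agent.SGP Pool.Agent.SGY Pool.Agent.SGD Filter

/-- the point of `v` in its slice -/
def pt {V : Type} (s : V → ℕ) (x y : V → ℝ) (B : ℝ) (v : V) : ℝ × ℝ := (x v, B ^ s v + y v)

/-- the three points are in general position for large `B` -/
def Gq {V : Type} (s : V → ℕ) (x y : V → ℝ) (u v w : V) : Prop :=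
  ∀ᶠ B : ℝ in atTop, o (pt s x y B u) (pt s x y B v) (pt s x y B w) ≠ 0

theorem Gq.rot {V : Type} {s : V → ℕ} {x y : V → ℝ} {u v w : V} (h : Gq s x y u v w) :
    Gq s x y v w u := by
  filter_upwards [h] with B hB
  rwa [← o_rot]

theorem gq_one (psg : PsgStmt) {V : Type} (s : V → ℕ) (x y : V → ℝ) {u v w : V}
    (h1 : s u < s w) (h2 : s v < s w) (hx : x u ≠ x v) : Gq s x y u v w := by
  rcases lt_or_gt_of_ne hx with h | h
  · filter_upwards [(psg s x y).1 u v w h1 h2 h] with B hB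
    exact hB.ne'
  · filter_upwards [(psg s x y).1 v u w h2 h1 h] with B hB
    rw [o_swap]
    exact neg_ne_zero.2 hB.ne'

theorem gq_two (psg : PsgStmt) {V : Type} (s : V → ℕ) (x y : V → ℝ) {u v w : V}
    (h1 : s u < s v) (h2 : s v = s w) (hx : x v ≠ x w) : Gq s x y u v w := by
  rcases lt_or_gt_of_ne hx with h | h
  · filter_upwards [(psg s x y).2 u w v (h2 ▸ h1) h2.symm h] with B hB
    rw [o_swap']
    exact neg_ne_zero.2 hB.ne'
  · filter_upwards [(psg s x y).2 u v w h1 h2 h] with B hB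
    exact hB.ne'

theorem gq_all {V : Type} (s : V → ℕ) (x y : V → ℝ) {u v w : V}
    (h1 : s u = s v) (h2 : s v = s w) (h : o (pv x y u) (pv x y v) (pv x y w) ≠ 0) :
    Gq s x y u v w := by
  refine Filter.Eventually.of_forall fun B => ?_
  have e : o (pt s x y B u) (pt s x y B v) (pt s x y B w) =
      o (pv x y u) (pv x y v) (pv x y w) := by
    unfold o pt pv
    rw [h1, h2]
    ring
  rw [e]
  exact h

theorem gq (psg : PsgStmt) {V : Type} {s : V → ℕ} {x y : V → ℝ} {u v w : V}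
    (hxuv : x u ≠ x v) (hxuw : x u ≠ x w) (hxvw : x v ≠ x w)
    (h : s u = s v → s v = s w → o (pv x y u) (pv x y v) (pv x y w) ≠ 0) : Gq s x y u v w := by
  rcases lt_trichotomy (s u) (s v) with h1 | h1 | h1
  · rcases lt_trichotomy (s v) (s w) with h2 | h2 | h2
    · exact gq_one psg s x y (h1.trans h2) h2 hxuv
    · exact gq_two psg s x y h1 h2 hxvw
    · exact (gq_one psg s x y h2 h1 hxuw.symm).rot
  · rcases lt_trichotomy (s v) (s w) with h2 | h2 | h2
    · exact gq_one psg s x y (h1.trans_lt h2) h2 hxuv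
    · exact gq_all s x y h1 h2 (h h1 h2)
    · exact (gq_two psg s x y (h1 ▸ h2) h1 hxuv).rot
  · rcases lt_trichotomy (s u) (s w) with h3 | h3 | h3
    · exact gq_one psg s x y h3 (h1.trans h3) hxuv
    · exact (gq_two psg s x y (h3 ▸ h1) h3.symm hxuw.symm).rot.rot
    · exact (gq_one psg s x y h1 h3 hxvw).rot.rot

/-- with the point `a` -/
theorem gq_a (psa : PsaStmt) {V : Type} (s : V → ℕ) (x y : V → ℝ) {u w : V}
    (hy : s u = s w → y u ≠ y w) : ∀ᶠ B : ℝ in atTop, ∀ᶠ W : ℝ in atTop,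
    o (pt s x y B u) (W, 0) (pt s x y B w) ≠ 0 := by
  have key : ∀ u w : V, (s u < s w ∨ (s u = s w ∧ y u < y w)) →
      ∀ᶠ B : ℝ in atTop, ∀ᶠ W : ℝ in atTop, 0 < o (pt s x y B u) (W, 0) (pt s x y B w) :=
    fun u w h => psa s x y u w h
  have h1 : (s u < s w ∨ (s u = s w ∧ y u < y w)) ∨ (s w < s u ∨ (s w = s u ∧ y w < y u)) := by
    rcases lt_trichotomy (s u) (s w) with h | h | h
    · exact Or.inl (Or.inl h)
    · rcases lt_or_gt_of_ne (hy h) with h' | h'
      · exact Or.inl (Or.inr ⟨h, h'⟩)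
      · exact Or.inr (Or.inr ⟨h.symm, h'⟩)
    · exact Or.inr (Or.inl h)
  rcases h1 with h1 | h1
  · filter_upwards [key u w h1] with B hB
    filter_upwards [hB] with W hW
    exact hW.ne'
  · filter_upwards [key w u h1] with B hB
    filter_upwards [hB] with W hW
    rw [o_swap, o_rot, o_rot]
    exact neg_ne_zero.2 hW.ne'

/-- Row PGP. -/
theorem pgp (psg : PsgStmt) (psa : PsaStmt) : PgpStmt := by
  classical
  intro V _ a b c E F h s x y hP
  have main : ∀ u v w : V, ∀ᶠ B : ℝ in atTop, ∀ᶠ W : ℝ in atTop, Rel E u → Rel E v → Rel E w →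
      u ≠ v → u ≠ w → v ≠ w →
      o (cu a s x y B W u) (cu a s x y B W v) (cu a s x y B W w) ≠ 0 := by
    intro u v w
    by_cases hh : Rel E u ∧ Rel E v ∧ Rel E w ∧ u ≠ v ∧ u ≠ w ∧ v ≠ w
    swap
    · refine Filter.Eventually.of_forall fun B => Filter.Eventually.of_forall fun W => ?_
      intro h1 h2 h3 h4 h5 h6
      exact absurd ⟨h1, h2, h3, h4, h5, h6⟩ hh
    obtain ⟨hu, hv, hw, huv, huw, hvw⟩ := hh
    have ha : ∀ B W : ℝ, cu a s x y B W a = (W, 0) := fun B W => if_pos rfl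
    have hna : ∀ (B W : ℝ) (z : V), z ≠ a → cu a s x y B W z = pt s x y B z :=
      fun B W z hz => if_neg hz
    by_cases hua : u = a
    · subst hua
      filter_upwards [gq_a psa s x y (u := v) (w := w) (fun e => hP.yd v ⟨hv, huv.symm⟩ w
        ⟨hw, huw.symm⟩ hvw e)] with B hB
      filter_upwards [hB] with W hW _ _ _ _ _ _
      rw [ha, hna B W v huv.symm, hna B W w huw.symm, o_swap]
      exact neg_ne_zero.2 hW
    by_cases hva : v = a
    · subst hva
      filter_upwards [gq_a psa s x y (u := u) (w := w) (fun e => hP.yd u ⟨hu, hua⟩ w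
        ⟨hw, hvw.symm⟩ huw e)] with B hB
      filter_upwards [hB] with W hW _ _ _ _ _ _
      rw [ha, hna B W u hua, hna B W w hvw.symm]
      exact hW
    by_cases hwa : w = a
    · subst hwa
      filter_upwards [gq_a psa s x y (u := u) (w := v) (fun e => hP.yd u ⟨hu, hua⟩ v
        ⟨hv, hva⟩ huv e)] with B hB
      filter_upwards [hB] with W hW _ _ _ _ _ _
      rw [ha, hna B W u hua, hna B W v hva, o_swap']
      exact neg_ne_zero.2 hW
    have hg : Gq s x y u v w := gq psg (hP.xd u ⟨hu, hua⟩ v ⟨hv, hva⟩ huv)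
      (hP.xd u ⟨hu, hua⟩ w ⟨hw, hwa⟩ huw) (hP.xd v ⟨hv, hva⟩ w ⟨hw, hwa⟩ hvw)
      (fun e1 e2 => hP.gp u ⟨hu, hua⟩ v ⟨hv, hva⟩ w ⟨hw, hwa⟩ e1 e2 huv huw hvw)
    filter_upwards [hg] with B hB
    refine Filter.Eventually.of_forall fun W _ _ _ _ _ _ => ?_
    rw [hna B W u hua, hna B W v hva, hna B W w hwa]
    exact hB
  have h1 : ∀ᶠ B : ℝ in atTop, ∀ u v w : V, ∀ᶠ W : ℝ in atTop, Rel E u → Rel E v → Rel E w →
      u ≠ v → u ≠ w → v ≠ w →
      o (cu a s x y B W u) (cu a s x y B W v) (cu a s x y B W w) ≠ 0 :=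
    Filter.eventually_all.2 fun u => Filter.eventually_all.2 fun v =>
      Filter.eventually_all.2 fun w => main u v w
  filter_upwards [h1] with B hB
  exact Filter.eventually_all.2 fun u => Filter.eventually_all.2 fun v =>
    Filter.eventually_all.2 fun w => hB u v w

end Pool.Agent.SGL.H28
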