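import Pool.Agent.SGL.StmtsS

/-!
# Squad SGL, row RUN (helper28): there is a sweep as a sequence
-/

set_option autoImplicit false

noncomputable section

namespace Pool.Agent.SGL.H28

open Pool.Agent.SGE Pool.Agent.SGP Pool.Agent.SGY Pool.Agent.SGD

/-- The first `n` steps of a sweep. -/
structure Pre {V : Type} [Fintype V] (a b c : V) (E : V → V → Prop) (F : V → V → V → Prop) (n : ℕ)
    (v : ℕ → V) (C₁ C S : ℕ → List V) : Prop where
  v0 : v 0 = c
  c0 : C 0 = [c, a]
  st : ∀ j, j ≤ n → Stt a b c E F (Kl v j) (C₁ j) (C j)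
  crd : (Kl v n).ncard = n
  inj : ∀ i j, 1 ≤ i → i ≤ n → 1 ≤ j → j ≤ n → v i = v j → i = j
  inn : ∀ i, 1 ≤ i → i ≤ n → v i ∈ Inn a b c E
  stp : ∀ j, j < n → ∃ (P : List V) (p : V) (mid : List V) (q : V) (Q : List V),
    S j = p :: (mid ++ [q]) ∧ C j = P ++ p :: (mid ++ q :: Q) ∧
      C (j + 1) = P ++ p :: v (j + 1) :: q :: Q
  fc : ∀ j, j < n → ∀ x y, F x y (v (j + 1)) → x ∈ Kl v j ∪ {a, c} → y ∈ Kl v j ∪ {a, c} →
    Con (S j) x y
  arc : ∀ j, j < n → ∃ (P : List V) (p q : V) (Q Y : List V),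
    C₁ j = P ++ p :: v (j + 1) :: q :: Q ∧ (q :: (Y ++ [p])).IsChain (F (v (j + 1))) ∧ Y.Nodup ∧
      (∀ y, y ∈ Y ↔ E (v (j + 1)) y ∧ y ∈ Kl v j ∪ {c}) ∧ (S j = Y ∨ (p = a ∧ S j = Y ++ [a]))

/-- change of a sequence at one place -/
theorem upd {α : Type} (f : ℕ → α) (n : ℕ) (x : α) :
    ∃ g : ℕ → α, (∀ j, j ≠ n → g j = f j) ∧ g n = x := by
  classical
  exact ⟨Function.update f n x, fun j hj => Function.update_of_ne hj _ _,
    Function.update_self _ _ _⟩

theorem Kl_congr {V : Type} {v w : ℕ → V} {j : ℕ} (h : ∀ i, i ≤ j → w i = v i) :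
    Kl w j = Kl v j := by
  ext x
  constructor
  · rintro ⟨i, h1, h2, h3⟩
    exact ⟨i, h1, h2, by rw [← h i h2]; exact h3⟩
  · rintro ⟨i, h1, h2, h3⟩
    exact ⟨i, h1, h2, by rw [h i h2]; exact h3⟩

theorem Kl_succ {V : Type} (v : ℕ → V) (n : ℕ) : Kl v (n + 1) = insert (v (n + 1)) (Kl v n) := by
  ext x
  constructor
  · rintro ⟨i, h1, h2, h3⟩
    rcases Nat.lt_or_ge n i with h | h
    · have : i = n + 1 := by omega
      subst this
      exact Or.inl h3.symm
    · exact Or.inr ⟨i, h1, h, h3⟩
  · rintro (h | ⟨i, h1, h2, h3⟩)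
    · exact ⟨n + 1, by omega, le_rfl, h.symm⟩
    · exact ⟨i, h1, by omega, h3⟩

theorem pre (exg : ExgStmt) (ini : IniStmt) (esp : EspStmt)
    {V : Type} [Fintype V] {a b c : V} {E : V → V → Prop}
    {F : V → V → V → Prop} (h : NT a b [a, c, b] E F) (hs : NoSep a E) (n : ℕ)
    (hn : n ≤ (Inn a b c E).ncard) :
    ∃ (v : ℕ → V) (C₁ C S : ℕ → List V), Pre a b c E F n v C₁ C S := by
  induction n with
  | zero =>
    obtain ⟨C₁, hC⟩ := ini h
    have hK : ∀ j, j ≤ 0 → Kl (fun _ : ℕ => c) j = (∅ : Set V) := by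
      intro j hj
      rw [Set.eq_empty_iff_forall_notMem]
      rintro x ⟨i, h1, h2, _⟩
      omega
    refine ⟨fun _ => c, fun _ => C₁, fun _ => [c, a], fun _ => [], rfl, rfl, ?_, ?_, ?_, ?_, ?_, ?_,
      ?_⟩
    · intro j hj
      rw [hK j hj]
      exact hC
    · rw [hK 0 le_rfl, Set.ncard_empty]
    · intro i j h1 h2
      omega
    · intro i h1 h2
      omega
    · intro j hj
      omega
    · intro j hj
      omega
    · intro j hj
      omega
  | succ n ih =>
    obtain ⟨v, C₁, C, S, I⟩ := ih (by omega)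
    have hne : (Inn a b c E \ Kl v n).Nonempty := by
      rw [Set.nonempty_iff_ne_empty]
      intro he
      have hsub : Inn a b c E ⊆ Kl v n := Set.sdiff_eq_empty.1 he
      have := Set.ncard_le_ncard hsub (Set.toFinite _)
      rw [I.crd] at this
      omega
    obtain ⟨P, p, v', q, Q, h1, h2, h3⟩ := exg (I.st n le_rfl) hs hne
    obtain ⟨hv, hvi, C₁', P', p', mid', q', Q', Y, e1, e2, e3, e4, e5, e6, e7⟩ :=
      esp (I.st n le_rfl) P p v' q Q h1 h2 h3
    obtain ⟨w, hw, hw'⟩ := upd v (n + 1) v'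
    obtain ⟨D₁, hD₁, hD₁'⟩ := upd C₁ (n + 1) C₁'
    obtain ⟨D, hD, hD'⟩ := upd C (n + 1) (P' ++ p' :: v' :: q' :: Q')
    obtain ⟨T, hT, hT'⟩ := upd S n (p' :: (mid' ++ [q']))
    have hK : ∀ j, j ≤ n → Kl w j = Kl v j := fun j hj =>
      Kl_congr fun i hi => hw i (by omega)
    have hK' : Kl w (n + 1) = insert v' (Kl v n) := by
      rw [Kl_succ, hw', hK n le_rfl]
    have hnv : ∀ i, 1 ≤ i → i ≤ n → v i ≠ v' := by
      intro i h1 h2 he
      exact hv ⟨i, h1, h2, he⟩
    refine ⟨w, D₁, D, T, ?_, ?_, ?_, ?_, ?_, ?_, ?_, ?_, ?_⟩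
    · rw [hw 0 (by omega)]
      exact I.v0
    · rw [hD 0 (by omega)]
      exact I.c0
    · intro j hj
      rcases Nat.lt_or_ge n j with hl | hl
      · have : j = n + 1 := by omega
        subst this
        rw [hK', hD₁', hD']
        exact e2
      · rw [hK j hl, hD₁ j (by omega), hD j (by omega)]
        exact I.st j hl
    · rw [hK', Set.ncard_insert_of_notMem hv (Set.toFinite _), I.crd]
    · intro i j i1 i2 j1 j2 he
      rcases Nat.lt_or_ge n i with hi | hi
      · have hi' : i = n + 1 := by omega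
        rcases Nat.lt_or_ge n j with hj | hj
        · omega
        · exfalso
          rw [hi', hw', hw j (by omega)] at he
          exact hnv j j1 hj he.symm
      · rcases Nat.lt_or_ge n j with hj | hj
        · exfalso
          have hj' : j = n + 1 := by omega
          rw [hj', hw', hw i (by omega)] at he
          exact hnv i i1 hi he
        · rw [hw i (by omega), hw j (by omega)] at he
          exact I.inj i j i1 hi j1 hj he
    · intro i i1 i2
      rcases Nat.lt_or_ge n i with hi | hi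
      · have hi' : i = n + 1 := by omega
        rw [hi', hw']
        exact hvi
      · rw [hw i (by omega)]
        exact I.inn i i1 hi
    · intro j hj
      rcases Nat.lt_or_ge j n with hl | hl
      · rw [hT j (by omega), hD j (by omega), hD (j + 1) (by omega), hw (j + 1) (by omega)]
        exact I.stp j hl
      · have hj' : j = n := by omega
        rw [hj', hT', hD n (by omega), hD', hw']
        exact ⟨P', p', mid', q', Q', rfl, e1, rfl⟩
    · intro j hj
      rcases Nat.lt_or_ge j n with hl | hl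
      · rw [hT j (by omega), hw (j + 1) (by omega), hK j hl.le]
        exact I.fc j hl
      · have hj' : j = n := by omega
        rw [hj', hT', hw', hK n le_rfl]
        exact e7
    · intro j hj
      rcases Nat.lt_or_ge j n with hl | hl
      · rw [hT j (by omega), hD₁ j (by omega), hw (j + 1) (by omega), hK j hl.le]
        exact I.arc j hl
      · have hj' : j = n := by omega
        rw [hj', hT', hD₁ n (by omega), hw', hK n le_rfl]
        exact ⟨P, p, q, Q, Y, h1, e3, e4, e5, e6⟩

/-- Row RUN. -/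
theorem run (exg : ExgStmt) (ini : IniStmt) (esp : EspStmt) (btp : BtpStmt) : RunStmt := by
  intro V _ a b c E F h hs N hN
  obtain ⟨v, C₁, C, S, I⟩ := pre exg ini esp h hs N hN.ge
  have hnd := h.nd
  simp only [List.nodup_cons, List.mem_cons, List.not_mem_nil, or_false, not_or,
    not_false_eq_true, List.nodup_nil, and_true] at hnd
  obtain ⟨⟨hac, hab⟩, hcb⟩ := hnd
  have hsub : Kl v N ⊆ Inn a b c E := by
    rintro x ⟨i, h1, h2, rfl⟩
    exact I.inn i h1 h2
  have hKI : Kl v N = Inn a b c E :=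
    Set.eq_of_subset_of_ncard_le hsub (by rw [I.crd, hN]) (Set.toFinite _)
  have hst := I.st N le_rfl
  obtain ⟨hf, ht⟩ := btp hst hKI.ge
  obtain ⟨w, hw, hw'⟩ := upd v (N + 1) b
  obtain ⟨D, hD, hD'⟩ := upd C (N + 1) [c, b, a]
  obtain ⟨T, hT, hT'⟩ := upd S N (C N)
  have hK : ∀ j, j ≤ N → Kl w j = Kl v j := fun j hj => Kl_congr fun i hi => hw i (by omega)
  -- the form of the last contour
  obtain ⟨mid, hmid⟩ : ∃ mid, C N = c :: (mid ++ [a]) := by
    have h1 := hst.n2.hd
    have h2 := hst.n2.ls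
    rcases hC : C N with _ | ⟨x, L⟩
    · rw [hC] at h1
      exact absurd h1 (by simp)
    · rw [hC] at h1 h2
      have hx : x = c := by simpa using h1
      subst hx
      rcases List.eq_nil_or_concat' L with hL | ⟨L', y, hL⟩
      · exfalso
        subst hL
        have : x = a := by simpa using h2
        exact hac this.symm
      · subst hL
        have : y = a := by
          rw [← List.cons_append, List.getLast?_concat] at h2
          exact Option.some.inj h2
        subst this
        exact ⟨L', rfl⟩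
  refine ⟨w, C₁, D, T, h, ?_, hw', ?_, ?_, ?_, ?_, ?_, ?_, ?_, ?_, ?_⟩
  · rw [hw 0 (by omega)]
    exact I.v0
  · rw [hD 0 (by omega)]
    exact I.c0
  · intro j hj
    rw [hK j hj, hD j (by omega)]
    exact I.st j hj
  · rw [hK N le_rfl]
    exact hKI
  · -- injective
    have key : ∀ i, i ≤ N + 1 → (i = 0 ∧ w i = c) ∨ (i = N + 1 ∧ w i = b) ∨
        (1 ≤ i ∧ i ≤ N ∧ w i = v i ∧ w i ≠ c ∧ w i ≠ b) := by
      intro i hi
      rcases Nat.eq_zero_or_pos i with h0 | h0
      · left
        refine ⟨h0, ?_⟩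
        rw [h0, hw 0 (by omega)]
        exact I.v0
      · right
        rcases Nat.lt_or_ge N i with h1 | h1
        · left
          have : i = N + 1 := by omega
          exact ⟨this, by rw [this]; exact hw'⟩
        · right
          have h2 := I.inn i h0 h1
          rw [← hw i (by omega)] at h2
          exact ⟨h0, h1, hw i (by omega), h2.2.2.1, h2.2.1⟩
    intro i j hi hj he
    rcases key i hi with ⟨i0, i1⟩ | ⟨i0, i1⟩ | ⟨i0, i1, i2, i3, i4⟩ <;>
      rcases key j hj with ⟨j0, j1⟩ | ⟨j0, j1⟩ | ⟨j0, j1, j2, j3, j4⟩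
    · omega
    · exact absurd (by rw [← i1, he, j1] : c = b) hcb
    · exact absurd (by rw [← he, i1] : w j = c) j3
    · exact absurd (by rw [← j1, ← he, i1] : c = b) hcb
    · omega
    · exact absurd (by rw [← he, i1] : w j = b) j4
    · exact absurd (by rw [he, j1] : w i = c) i3
    · exact absurd (by rw [he, j1] : w i = b) i4
    · exact I.inj i j i0 i1 j0 j1 (by rw [← i2, ← j2]; exact he)
  · intro i hi
    rcases Nat.eq_zero_or_pos i with h0 | h0
    · rw [h0, hw 0 (by omega), I.v0]
      exact fun e => hac e.symm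
    · rcases Nat.lt_or_ge N i with h1 | h1
      · have : i = N + 1 := by omega
        rw [this, hw']
        exact fun e => hab e.symm
      · rw [hw i (by omega)]
        exact (I.inn i h0 h1).1
  · intro j hj
    rcases Nat.lt_or_ge j N with hl | hl
    · rw [hT j (by omega), hD j (by omega), hD (j + 1) (by omega), hw (j + 1) (by omega)]
      exact I.stp j hl
    · have hj' : j = N := by omega
      rw [hj', hT', hD N (by omega), hD', hw', hmid]
      exact ⟨[], c, mid, a, [], rfl, rfl, rfl⟩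
  · intro j hj
    rcases Nat.lt_or_ge j N with hl | hl
    · rw [hT j (by omega), hw (j + 1) (by omega), hK j hl.le]
      exact I.fc j hl
    · have hj' : j = N := by omega
      rw [hj', hT', hw', hK N le_rfl]
      exact hf
  · intro j hj
    rw [hT j (by omega), hw (j + 1) (by omega), hK j hj.le]
    exact I.arc j hj
  · rw [hT', hD N (by omega)]
    exact ⟨rfl, ht⟩

end Pool.Agent.SGL.H28
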